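import Pool.Agent.Q44.WK.Stm

/-!
# Project WK of helper44: jobs WK-GR (`S_grow`) and WK-NC (`S_nc`)
-/

set_option autoImplicit false

namespace Pool.Agent.Q151.WK

open Pool.Agent.Q44.WK Height

theorem grow : S_grow := by
  intro u c h0 hrec hunb
  obtain ⟨B, hB⟩ : ∃ B : ℝ, B = max |c| (max 1 (u 0)) := ⟨_, rfl⟩
  have hBc : |c| ≤ B := hB ▸ le_max_left _ _
  have hB1 : 1 ≤ B := hB ▸ (le_max_left _ _).trans (le_max_right _ _)
  have hB0 : u 0 ≤ B := hB ▸ (le_max_right _ _).trans (le_max_right _ _)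
  have hc : c ≤ B := (le_abs_self c).trans hBc
  classical
  obtain ⟨k, hk, hmin⟩ : ∃ k, B < u k ∧ ∀ j < k, ¬ B < u j :=
    ⟨Nat.find (hunb B), Nat.find_spec (hunb B), fun j hj => Nat.find_min (hunb B) hj⟩
  have hk0 : k ≠ 0 := by
    intro h
    rw [h] at hk
    linarith
  obtain ⟨i, rfl⟩ : ∃ i, k = i + 1 := ⟨k - 1, by omega⟩
  have hi : u i ≤ B := not_lt.1 (hmin i (Nat.lt_succ_self i))
  have key : ∀ j, B < u (i + 1 + j) ∧ 2 * u (i + 1 + j) ≤ u (i + 1 + j + 1) := by
    intro j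
    induction j with
    | zero =>
      refine ⟨hk, ?_⟩
      have := hrec i
      have e : i + 2 = i + 1 + 1 := rfl
      rw [e] at this
      simp only [add_zero]
      linarith
    | succ j ih =>
      obtain ⟨h1, h2⟩ := ih
      have h3 : B < u (i + 1 + (j + 1)) := by
        have e : i + 1 + (j + 1) = i + 1 + j + 1 := rfl
        rw [e]
        linarith
      refine ⟨h3, ?_⟩
      have := hrec (i + 1 + j)
      have e1 : i + 1 + (j + 1) = i + 1 + j + 1 := rfl
      have e2 : i + 1 + (j + 1) + 1 = i + 1 + j + 2 := rfl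
      rw [e2, e1]
      linarith
  refine ⟨i + 1, fun j hj => ?_⟩
  obtain ⟨l, rfl⟩ : ∃ l, j = i + 1 + l := ⟨j - (i + 1), by omega⟩
  obtain ⟨h1, h2⟩ := key l
  exact ⟨h2, by linarith⟩

theorem nc : S_nc := by
  intro K _ _ B
  classical
  have hfin : {x : K | logHeight₁ x ≤ B}.Finite := NumberField.finite_setOfPred_logHeight₁_le K B
  refine ⟨Fintype.piFinset (fun _ : Fin 3 => hfin.toFinset), ?_⟩
  intro x hx hB
  obtain ⟨b, hb⟩ : ∃ b, x b ≠ 0 := by
    by_contra h
    push Not at h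
    exact hx (funext h)
  refine ⟨fun a => x a / x b, ?_, x b, hb, ?_⟩
  · rw [Fintype.mem_piFinset]
    intro a
    rw [Set.Finite.mem_toFinset]
    change logHeight₁ (x a / x b) ≤ B
    rw [logHeight₁_div_eq_logHeight]
    have h1 := logHeight_comp_le ![a, b] x
    have h2 : x ∘ ![a, b] = ![x a, x b] := by
      funext i
      fin_cases i <;> rfl
    rw [h2] at h1
    exact h1.trans hB
  · funext a
    simp only [Pi.smul_apply, smul_eq_mul]
    field_simp

end Pool.Agent.Q151.WK
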