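import Pool.Agent.Q44.WK.Stm

/-!
# Project WK of helper44: job WK-ID (`S_id`)
-/

set_option autoImplicit false

namespace Pool.Agent.Q151.WK

open Pool.Agent.Q44.WK

/-- `v × (y_i e_a - y_a e_i)` is a multiple of `y`, if `v` is orthogonal to `y`. -/
theorem cr_id {F : Type} [Field F] (v y : V F) (h : v 0 * y 0 + v 1 * y 1 + v 2 * y 2 = 0)
    (i a k : Fin 3) :
    y i * Dat.cr v a k - y a * Dat.cr v i k = Dat.cr v a i * y k := by
  fin_cases i <;> fin_cases a <;> fin_cases k <;> simp [Dat.cr] <;>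
    first
      | ring1
      | linear_combination h
      | linear_combination -h

theorem bil {F : Type} [Field F] (s : Fin 3 → Fin 3 → F) (hs : ∀ k l, s k l = s l k)
    (p q r : Fin 3 → F) (α β γ : F) :
    α ^ 2 * (∑ k, ∑ l, p k * s k l * q l) - α * β * (∑ k, ∑ l, r k * s k l * p l)
      - α * γ * (∑ k, ∑ l, r k * s k l * q l) + γ * β * (∑ k, ∑ l, r k * s k l * r l)
      = ∑ k, ∑ l, (α * p k - γ * r k) * s k l * (α * q l - β * r l) := by
  simp only [Fin.sum_univ_three]
  rw [hs 1 0, hs 2 0, hs 2 1]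
  ring

theorem ident : S_id := by
  intro F _ D x y _ hlin hquad i a b
  have hs : ∀ k l, D.sym x k l = D.sym x l k := by
    intro k l
    unfold Dat.sym
    refine Finset.sum_congr rfl fun i _ => Finset.sum_congr rfl fun j _ => ?_
    rw [add_comm (D.b i j k l)]
  have hv : D.lam x 0 * y 0 + D.lam x 1 * y 1 + D.lam x 2 * y 2 = 0 := by
    rw [← hlin]
    simp only [Dat.lam, Dat.lin, Fin.sum_univ_three]
    ring
  have hq : ∑ k, ∑ l, y k * D.sym x k l * y l = 0 := by
    have h1 : ∑ k, ∑ l, y k * D.sym x k l * y l = 2 * D.quad x y := by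
      simp only [Dat.sym, Dat.quad, Fin.sum_univ_three]
      ring
    rw [h1, hquad, mul_zero]
  have h1 := bil (D.sym x) hs (Dat.cr (D.lam x) a) (Dat.cr (D.lam x) b) (Dat.cr (D.lam x) i)
    (y i) (y b) (y a)
  have h2 : y i ^ 2 * D.G x a b - y i * y b * D.G x i a - y i * y a * D.G x i b
      + y a * y b * D.G x i i
      = ∑ k, ∑ l, (Dat.cr (D.lam x) a i * y k) * D.sym x k l * (Dat.cr (D.lam x) b i * y l) := by
    have h3 : (∑ k, ∑ l, (Dat.cr (D.lam x) a i * y k) * D.sym x k l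
        * (Dat.cr (D.lam x) b i * y l))
        = ∑ k, ∑ l, (y i * Dat.cr (D.lam x) a k - y a * Dat.cr (D.lam x) i k) * D.sym x k l *
          (y i * Dat.cr (D.lam x) b l - y b * Dat.cr (D.lam x) i l) :=
      Finset.sum_congr rfl fun k _ => Finset.sum_congr rfl fun l _ => by
        rw [cr_id _ y hv i a k, cr_id _ y hv i b l]
    rw [h3]
    exact h1
  rw [h2]
  have h4 : ∑ k, ∑ l, (Dat.cr (D.lam x) a i * y k) * D.sym x k l * (Dat.cr (D.lam x) b i * y l)
      = Dat.cr (D.lam x) a i * Dat.cr (D.lam x) b i * ∑ k, ∑ l, y k * D.sym x k l * y l := by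
    rw [Finset.mul_sum]
    refine Finset.sum_congr rfl fun k _ => ?_
    rw [Finset.mul_sum]
    refine Finset.sum_congr rfl fun l _ => ?_
    ring
  rw [h4, hq, mul_zero]

end Pool.Agent.Q151.WK
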